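import Mathlib
import Pool.Agent.H.MP_5d01ce_co.A

set_option autoImplicit false

namespace Pool.Agent.H.MP_a6f858_co

open Set Submodule Module Matroid Pool.Agent.H.MP_5d01ce_co

section general
variable {α : Type} {M K : Matroid α} {H : Set α}

theorem relax (hE : M.E.Finite) (hH : H ⊆ M.E)
    (hb : ∀ h ∈ H, ∀ f ∈ M.E \ H, M.IsBase (insert f (H \ {h}))) {h0 f0 : α} (hh : h0 ∈ H)
    (hf : f0 ∈ M.E \ H) : ∃ K : Matroid α, K.E = M.E ∧ ∀ I, K.Indep I ↔ M.Indep I ∨ I = H := by
  have hHf := hE.subset hH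
  have sub : ∀ I ⊆ H, M.Indep I ∨ I = H := by
    intro I hI
    by_cases q : I = H
    · exact Or.inr q
    obtain ⟨h, h1, h2⟩ := exists_of_ssubset (hI.ssubset_of_ne q)
    exact Or.inl ((hb h h1 f0 hf).indep.subset fun x hx =>
      Or.inr ⟨hI hx, fun r => h2 (r ▸ hx)⟩)
  have cb : ∀ f ∈ M.E \ H, (insert f (H \ {h0})).ncard = H.ncard := fun f hf => by
    rw [ncard_insert_of_notMem (fun r => hf.2 r.1) (hHf.subset sdiff_subset),
      ncard_sdiff_singleton_add_one hh hHf]
  have aug : ∀ I J, M.Indep I → M.Indep J → I.ncard < J.ncard →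
      ∃ e ∈ J, e ∉ I ∧ M.Indep (insert e I) := by
    intro I J hI hJ h
    obtain ⟨e, h1, h2⟩ := hI.augment hJ (by
      rw [← (hE.subset hI.subset_ground).cast_ncard_eq, ← (hE.subset hJ.subset_ground).cast_ncard_eq]
      exact_mod_cast h)
    exact ⟨e, h1.1, h1.2, h2⟩
  refine ⟨(IndepMatroid.ofFinite (E := M.E) hE (fun I => M.Indep I ∨ I = H)
    (Or.inl M.empty_indep) ?_ ?_ ?_).matroid, rfl, fun I => Iff.rfl⟩
  · rintro I J (h | rfl) s
    · exact Or.inl (h.subset s)
    · exact sub I s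
  · rintro I J (hI | rfl) (hJ | rfl) h
    · obtain ⟨e, a, b, c⟩ := aug I J hI hJ h
      exact ⟨e, a, b, Or.inl c⟩
    · by_cases q : I ⊆ J
      · obtain ⟨e, a, b⟩ := exists_of_ssubset (q.ssubset_of_ne (by rintro rfl; omega))
        exact ⟨e, a, b, sub _ (insert_subset a q)⟩
      obtain ⟨f, a, b⟩ := not_subset.1 q
      have hf' : f ∈ M.E \ J := ⟨hI.subset_ground a, b⟩
      obtain ⟨e, c, d, g⟩ := aug I _ hI (hb h0 hh f hf').indep (by rwa [cb f hf'])
      exact ⟨e, (c.resolve_left (by rintro rfl; exact d a)).1, d, Or.inl g⟩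
    · obtain ⟨e, a, b, c⟩ := aug _ J (hb h0 hh f0 hf).indep hJ (by rwa [cb f0 hf])
      exact absurd ((hb h0 hh f0 hf).eq_of_subset_indep c (subset_insert _ _))
        (ssubset_insert b).ne
    · omega
  · rintro I (h | rfl)
    · exact h.subset_ground
    · exact hH

theorem caseA (hE : K.E = M.E) (hK : ∀ I, K.Indep I ↔ M.Indep I ∨ I = H)
    (hn : ∀ c ∈ M.E \ H, M.Indep {c}) {C D : Set α} (hC : C ⊆ M.E) (hd : Disjoint C D)
    (h : (∃ h ∈ D, h ∈ H) ∨ ∃ c ∈ C, c ∉ H) : K ／ C ＼ D = M ／ C ＼ D := by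
  rcases h with ⟨h, h1, h2⟩ | ⟨c, h1, h2⟩
  · have e : K ＼ {h} = M ＼ {h} := by
      refine ext_indep (by simp [hE]) fun I _ => ?_
      rw [delete_indep_iff, delete_indep_iff, hK]
      refine and_congr_left fun q => or_iff_left ?_
      rintro rfl
      exact disjoint_singleton_right.1 q h2
    have d : Disjoint C {h} := hd.mono_right (singleton_subset_iff.2 h1)
    rw [← union_eq_self_of_subset_left (singleton_subset_iff.2 h1), ← delete_delete,
      ← delete_delete, contract_delete_comm _ d, contract_delete_comm _ d, e]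
  · have e : K ／ {c} = M ／ {c} := by
      have i := hn c ⟨hC h1, h2⟩
      refine ext_indep (by simp [hE]) fun I _ => ?_
      rw [i.contract_indep_iff, ((hK _).2 (Or.inl i)).contract_indep_iff, hK]
      refine and_congr_right fun _ => or_iff_left ?_
      rintro rfl
      exact h2 (Or.inr rfl)
    rw [← union_eq_self_of_subset_left (singleton_subset_iff.2 h1), ← contract_contract,
      ← contract_contract, e]

variable {V : Type} [AddCommGroup V] [Module (ZMod 2) V] {v : α → V}

theorem z2 (c : ZMod 2) (h : c ≠ 0) : c = 1 := by revert c; decide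

theorem same {B : Finset α} {x y : V} (hx : x ∈ span (ZMod 2) (v '' B))
    (hy : y ∈ span (ZMod 2) (v '' B)) (h1 : ∀ b ∈ B, x ∉ span (ZMod 2) (v '' (B \ {b})))
    (h2 : ∀ b ∈ B, y ∉ span (ZMod 2) (v '' (B \ {b}))) : x = y := by
  classical
  have key : ∀ x ∈ span (ZMod 2) (v '' B), (∀ b ∈ B, x ∉ span (ZMod 2) (v '' (B \ {b}))) →
      x = ∑ b ∈ B, v b := by
    intro x hx h1
    obtain ⟨c, rfl⟩ := (mem_span_image_finset_iff_exists_fun' _).1 hx
    refine Finset.sum_congr rfl fun b hb => ?_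
    rw [z2 (c b) fun q => h1 b hb ?_, one_smul]
    refine sum_mem fun a ha => ?_
    by_cases r : a = b
    · rw [r, q, zero_smul]; exact zero_mem _
    · exact smul_mem _ _ (subset_span ⟨a, ⟨ha, r⟩, rfl⟩)
  rw [key x hx h1, key y hy h2]

theorem caseAux (r : Rp (ZMod 2) M v) {B : Finset α} (hB : M.IsBase B) {a b : α}
    (ha : a ∈ M.E \ B) (hb : b ∈ M.E \ B) (h1 : ∀ h ∈ B, M.Indep (insert a (B \ {h})))
    (h2 : ∀ h ∈ B, M.Indep (insert b (B \ {h}))) : v a = v b := by
  have k : ∀ a ∈ M.E \ B, v a ∈ span (ZMod 2) (v '' B) := fun a ha =>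
    (r.cl hB.subset_ground ha.1).1 (by rw [hB.closure_eq]; exact ha.1)
  have k2 : ∀ a ∈ M.E \ B, ∀ h, M.Indep (insert a (B \ {h})) →
      v a ∉ span (ZMod 2) (v '' (B \ {h})) := fun a ha h q =>
    ((linearIndepOn_insert (fun t => ha.2 t.1)).1 ((r _ q.subset_ground).1 q)).2
  exact same (k a ha) (k b hb) (fun h hh => k2 a ha h (h1 h hh)) fun h hh => k2 b hb h (h2 h hh)

theorem no24 (r : Rp (ZMod 2) M v) (h4 : M.E.ncard = 4)
    (hI : ∀ I ⊆ M.E, (M.Indep I ↔ I.ncard ≤ 2)) : False := by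
  classical
  obtain ⟨a, b, c, d, ab, ac, ad, bc, bd, cd, hE⟩ := ncard_eq_four.1 h4
  have p : ∀ x ∈ M.E, ∀ y ∈ M.E, M.Indep {x, y} := fun x hx y hy =>
    (hI _ (insert_subset hx (singleton_subset_iff.2 hy))).2
      ((ncard_insert_le _ _).trans (by simp))
  have ma : a ∈ M.E := by simp [hE]
  have mb : b ∈ M.E := by simp [hE]
  have mc : c ∈ M.E := by simp [hE]
  have md : d ∈ M.E := by simp [hE]
  have hB : M.IsBase (({a, b} : Finset α) : Set α) := by
    rw [Finset.coe_pair]
    refine (p a ma b mb).isBase_of_forall_insert fun e he q => ?_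
    have := (hI _ q.subset_ground).1 q
    rw [ncard_insert_of_notMem he.2, ncard_pair ab] at this
    omega
  have k : ∀ x ∈ M.E, ∀ h ∈ ({a, b} : Finset α),
      M.Indep (insert x ((({a, b} : Finset α) : Set α) \ {h})) := by
    intro x hx h hh
    simp only [Finset.mem_insert, Finset.mem_singleton] at hh
    rcases hh with rfl | rfl
    · exact (p x hx b mb).subset (insert_subset_insert (by simp))
    · exact (p x hx a ma).subset (insert_subset_insert (by simp))
  have := caseAux r hB (a := c) (b := d) ⟨mc, by simp [ac.symm, bc.symm]⟩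
    ⟨md, by simp [ad.symm, bd.symm]⟩ (k c mc) (k d md)
  exact cd (((r _ (p c mc d md).subset_ground).1 (p c mc d md)).injOn (by simp) (by simp) this)

theorem inj_bound {F U W : Type} [Field F] [AddCommGroup U] [Module F U] [AddCommGroup W]
    [Module F W] [FiniteDimensional F W] (S : Submodule F U) (g : U →ₗ[F] W)
    (h : ∀ x ∈ S, g x = 0 → x = 0) : finrank F S ≤ finrank F W :=
  LinearMap.finrank_le_finrank_of_injective (f := g.comp S.subtype)
    ((injective_iff_map_eq_zero _).2 fun x hx => Subtype.ext (h x x.2 hx))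

theorem quot_inf {F U : Type} [Field F] [AddCommGroup U] [Module F U] {A B Q : Submodule F U}
    {A0 B0 : Submodule F U} (hA : A0 ≤ A) (hB : B0 ≤ B)
    (hQ : Q = Q ⊓ A ⊔ Q ⊓ B) : A0.map Q.mkQ ⊓ B0.map Q.mkQ ≤ (A ⊓ B).map Q.mkQ := by
  rintro _ ⟨⟨a, ha, rfl⟩, ⟨b, hb, e⟩⟩
  rw [mkQ_apply, mkQ_apply, Submodule.Quotient.eq, hQ] at e
  obtain ⟨x, hx, y, hy, e⟩ := mem_sup.1 e
  refine ⟨a + x, ⟨add_mem (hA ha) hx.2, ?_⟩, ?_⟩
  · rw [show a + x = b - y by linear_combination (norm := module) e]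
    exact sub_mem (hB hb) hy.2
  · rw [map_add, mkQ_apply Q x, (Submodule.Quotient.mk_eq_zero _).2 hx.1, add_zero]

end general

def toV (x : ℕ) : ℕ → ZMod 2 := fun i => if x.testBit i then 1 else 0

theorem toV_xor (x y : ℕ) : toV (x ^^^ y) = toV x + toV y := by
  funext i
  simp only [toV, Nat.testBit_xor, Pi.add_apply]
  cases x.testBit i <;> cases y.testBit i <;> decide

def rkL : ℕ → List ℕ → ℕ
  | 0, _ => 0
  | _, [] => 0
  | t + 1, x :: L => if x = 0 then rkL t L else
      rkL t (L.map fun y => if y.testBit x.log2 then y ^^^ x else y) + 1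

theorem rkL_le (t : ℕ) (L : List ℕ) (S : Submodule (ZMod 2) (ℕ → ZMod 2))
    [FiniteDimensional (ZMod 2) S] (h : ∀ x ∈ L, toV x ∈ S) : rkL t L ≤ finrank (ZMod 2) S := by
  induction t generalizing L S with
  | zero => simp [rkL]
  | succ t ih =>
    cases L with
    | nil => simp [rkL]
    | cons x L =>
      rw [rkL]
      split_ifs with h0
      · exact ih L S fun y hy => h y (List.mem_cons_of_mem _ hy)
      have hx : x.testBit x.log2 = true := Nat.testBit_log2 h0
      have h1 := h x List.mem_cons_self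
      have := ih (L.map fun y => if y.testBit x.log2 then y ^^^ x else y)
        (S ⊓ LinearMap.ker (LinearMap.proj x.log2)) (by
          intro z hz
          obtain ⟨y, hy, rfl⟩ := List.mem_map.1 hz
          have h2 := h y (List.mem_cons_of_mem _ hy)
          split_ifs with q
          · refine ⟨toV_xor _ _ ▸ add_mem h2 h1, ?_⟩
            simp [toV, Nat.testBit_xor, q, hx]
          · exact ⟨h2, by simp [toV, q]⟩)
      refine (Nat.succ_le_succ this).trans (finrank_lt_finrank_of_lt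
        (lt_of_le_of_ne inf_le_left fun q => ?_))
      have h3 : toV x ∈ S ⊓ LinearMap.ker (LinearMap.proj x.log2) := q.symm ▸ h1
      simpa [toV, hx] using h3.2

end Pool.Agent.H.MP_a6f858_co
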