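import Mathlib
import Pool.Agent.H.MP_a6f858_co.A

set_option autoImplicit false

namespace Pool.Agent.H.MP_a6f858_co

open Set Submodule Module Matroid Pool.Agent.H.MP_5d01ce_co

abbrev Z2 := ZMod 2

abbrev cnd (n e j : ℕ) : Prop :=
  (j = 0 ∧ (e = 1 ∨ (e % 2 = 0 ∧ 2 ≤ e))) ∨
    (1 ≤ j ∧ ((e = 0 ∧ j ≤ n) ∨ (e = 2 ∧ j = n) ∨ e = 2 * j ∨ e = 2 * j + 1 ∨ e = 2 * j + 2))

def v (n e : ℕ) : ℕ → Z2 := fun j => if cnd n e j then 1 else 0

theorem v1 {n e j : ℕ} (h : cnd n e j) : v n e j = 1 := if_pos h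
theorem v0 {n e j : ℕ} (h : ¬ cnd n e j) : v n e j = 0 := if_neg h
theorem vv {n e j n' e' j' : ℕ} (h : cnd n e j ↔ cnd n' e' j') : v n e j = v n' e' j' :=
  if_congr h rfl rfl

def HH (n : ℕ) : Set ℕ := {e | e < 2 * n + 2 ∧ (e = 0 ∨ (e % 2 = 1 ∧ 3 ≤ e))}

theorem van {n : ℕ} {X : Set ℕ} (φ : (ℕ → Z2) →ₗ[Z2] Z2) (h : ∀ e ∈ X, φ (v n e) = 0)
    {x : ℕ → Z2} (hx : x ∈ span Z2 (v n '' X)) : φ x = 0 := by
  have : span Z2 (v n '' X) ≤ LinearMap.ker φ := by
    rw [span_le]
    rintro _ ⟨e, he, rfl⟩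
    exact h e he
  exact this hx

theorem van0 {n j : ℕ} {X : Set ℕ} (h : ∀ e ∈ X, ¬ cnd n e j)
    {x : ℕ → Z2} (hx : x ∈ span Z2 (v n '' X)) : x j = 0 :=
  van (LinearMap.proj j) (fun e he => v0 (h e he)) hx

theorem van2 {n j l : ℕ} {X : Set ℕ} (h : ∀ e ∈ X, cnd n e j ↔ cnd n e l)
    {x : ℕ → Z2} (hx : x ∈ span Z2 (v n '' X)) : x j = x l := by
  have := van ((LinearMap.proj j : (ℕ → Z2) →ₗ[Z2] Z2) - (LinearMap.proj l : (ℕ → Z2) →ₗ[Z2] Z2))
    (fun e he => by simpa [sub_eq_zero] using vv (h e he)) hx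
  simpa [sub_eq_zero] using this

theorem rk_bd {n : ℕ} {X : Set ℕ} (hX : X ⊆ Iio (2 * n + 2)) :
    finrank Z2 (span Z2 (v n '' X)) ≤ n + 1 := by
  refine (inj_bound _ (LinearMap.pi fun j : Fin (n + 1) => LinearMap.proj (j : ℕ))
    fun x hx h => funext fun j => ?_).trans (by simp)
  by_cases q : j < n + 1
  · exact congrFun h ⟨j, q⟩
  · exact van0 (fun e he => by have : e < 2 * n + 2 := hX he; omega) hx

theorem card_HH (n : ℕ) : (HH n).ncard = n + 1 := by
  have : HH n = ↑(insert 0 ((Finset.range n).image fun i => 2 * i + 3)) := by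
    ext e
    simp only [HH, mem_ofPred_eq, Finset.coe_insert, Finset.coe_image, Finset.coe_range,
      mem_insert_iff, mem_image, mem_Iio]
    constructor
    · rintro ⟨h1, rfl | h2⟩
      · exact Or.inl rfl
      · exact Or.inr ⟨(e - 3) / 2, by omega, by omega⟩
    · rintro (rfl | ⟨i, h1, rfl⟩) <;> omega
  rw [this, ncard_coe_finset, Finset.card_insert_of_notMem (by simp),
    Finset.card_image_of_injective _ (fun a b h => by simpa using h), Finset.card_range]

theorem HH_sub (n : ℕ) : HH n ⊆ Iio (2 * n + 2) := fun _ h => h.1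

variable {n : ℕ} {M : Matroid ℕ}

theorem ind_bd (hE : M.E = Iio (2 * n + 2)) (r : Rp Z2 M (v n)) {I : Set ℕ} (hI : M.Indep I) :
    I.ncard ≤ n + 1 := by
  have h1 : I ⊆ Iio (2 * n + 2) := hE ▸ hI.subset_ground
  rw [← li_rk ((finite_Iio _).subset h1) ((r _ hI.subset_ground).1 hI)]
  exact rk_bd h1

theorem base (hE : M.E = Iio (2 * n + 2)) (r : Rp Z2 M (v n)) :
    ∀ h ∈ HH n, ∀ f ∈ M.E \ HH n, M.IsBase (insert f (HH n \ {h})) := by
  intro h hh f hf
  have hf1 : f < 2 * n + 2 := by have := hf.1; rwa [hE] at this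
  have hf2 : ¬ (f < 2 * n + 2 ∧ (f = 0 ∨ (f % 2 = 1 ∧ 3 ≤ f))) := hf.2
  obtain ⟨h1, h2⟩ := hh
  have s : insert f (HH n \ {h}) ⊆ M.E :=
    insert_subset hf.1 (hE ▸ sdiff_subset.trans (HH_sub n))
  have nf : f ∉ HH n \ {h} := fun q => hf.2 q.1
  have li : M.Indep (insert f (HH n \ {h})) := by
    rw [r _ s, linearIndepOn_insert nf, linearIndepOn_iff_notMem_span]
    refine ⟨fun x hx q => ?_, fun q => ?_⟩
    · obtain ⟨⟨a, b⟩, c⟩ := hx
      have c : x ≠ h := c
      have := van2 (j := (x - 1) / 2) (l := (h - 1) / 2) (by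
        rintro e ⟨⟨⟨a1, a2⟩, a3⟩, a4⟩
        have a3 : e ≠ h := a3
        have a4 : e ≠ x := a4
        omega) q
      by_cases p : x = 0
      · rw [v0 (by omega), v1 (by omega)] at this; exact zero_ne_one this
      · rw [v1 (by omega), v0 (by omega)] at this; exact one_ne_zero this
    · have := van0 (j := 0) (by rintro e ⟨⟨a1, a2⟩, -⟩; omega) q
      rw [v1 (by omega)] at this; exact one_ne_zero this
  refine li.isBase_of_forall_insert fun e he q => ?_
  have := ind_bd hE r q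
  have fin : (HH n).Finite := (finite_Iio _).subset (HH_sub n)
  rw [ncard_insert_of_notMem he.2 ((fin.subset sdiff_subset).insert _),
    ncard_insert_of_notMem nf (fin.subset sdiff_subset),
    ncard_sdiff_singleton_add_one (show h ∈ HH n from ⟨h1, h2⟩) fin, card_HH] at this
  omega

def pos (n d e : ℕ) : ℕ := if d ≤ e then e - d else e + 2 * n - d

theorem width {l : ℕ} (h1 : 1 ≤ l) (h2 : l < n) (T : ℕ) :
    finrank Z2 ↥(span Z2 (v n '' {e | e < 2 * n + 2 ∧ e ≠ 2 * l + 2 ∧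
      (e < 2 ∨ pos n (2 * l + 2) e ≤ T)}) ⊓
      span Z2 (v n '' {e | e < 2 * n + 2 ∧ 2 ≤ e ∧ T < pos n (2 * l + 2) e})) ≤ 3 := by
  obtain ⟨a, ha⟩ : ∃ a, ∀ j, 1 ≤ j → j ≤ n → T ≤ pos n (2 * l + 2) (2 * j + 1) →
      pos n (2 * l + 2) (2 * j + 1) ≤ T + 1 → j = a := by
    by_cases q : ∃ j, 1 ≤ j ∧ j ≤ n ∧ T ≤ pos n (2 * l + 2) (2 * j + 1) ∧
      pos n (2 * l + 2) (2 * j + 1) ≤ T + 1
    · obtain ⟨a, q⟩ := q
      refine ⟨a, fun j b c d e => ?_⟩
      unfold pos at q d e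
      split_ifs at q d e <;> omega
    · exact ⟨0, fun j b c d e => absurd ⟨j, b, c, d, e⟩ q⟩
  refine (inj_bound _ ((LinearMap.proj 0).prod ((LinearMap.proj a).prod (LinearMap.proj l)))
    fun x hx h => funext fun j => ?_).trans (by simp)
  obtain ⟨p0, pa, pl⟩ : x 0 = 0 ∧ x a = 0 ∧ x l = 0 := by simpa using h
  by_cases q0 : j = 0
  · rw [q0]; exact p0
  by_cases q1 : n < j
  · exact van0 (by rintro e ⟨a1, -⟩; omega) hx.2
  by_cases q2 : pos n (2 * l + 2) (2 * j + 1) < T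
  · refine van0 ?_ hx.2
    rintro e ⟨a1, a2, a3⟩
    unfold pos at q2 a3
    split_ifs at q2 a3 <;> omega
  by_cases q3 : pos n (2 * l + 2) (2 * j + 1) ≤ T + 1
  · rw [ha j (by omega) (by omega) (by omega) q3]; exact pa
  · refine (van2 (l := l) ?_ hx.1).trans pl
    rintro e ⟨a1, a2, a3⟩
    unfold pos at q3 a3
    split_ifs at q3 a3 <;> omega

def code (e : ℕ) : ℕ := [62, 1, 35, 2, 7, 4, 13, 8, 25, 16, 49, 32].getD e 0

theorem v_code {e : ℕ} (he : e < 12) : v 5 e = toV (code e) := by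
  funext j
  by_cases q : j < 6
  · have : ∀ e < 12, ∀ j < 6, v 5 e j = toV (code e) j := by decide
    exact this e he j q
  · have h1 : ∀ e < 12, code e < 2 ^ 6 := by decide
    rw [v0 (by omega), toV, if_neg]
    rw [Nat.testBit_eq_false_of_lt ((h1 e he).trans_le (Nat.pow_le_pow_right (by omega) (by omega)))]
    simp

theorem v5_inj {a b : ℕ} (ha : a < 12) (hb : b < 12) (h : v 5 a = v 5 b) : a = b := by
  have : ∀ a < 12, ∀ b < 12, (∀ j < 6, v 5 a j = v 5 b j) → a = b := by decide +kernel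
  exact this a ha b hb fun j _ => congrFun h j

theorem chk : ∀ X ∈ Finset.powersetCard 5 (Finset.range 12),
    10 ≤ rkL 12 (((List.range 12).filter (· ∈ X)).map code) +
      rkL 12 (((List.range 12).filter (· ∉ X)).map code) := by decide +kernel

theorem thick {X Y : Set ℕ} (hX : X.ncard = 5) (hu : X ∪ Y = Iio 12) :
    10 ≤ finrank Z2 (span Z2 (v 5 '' X)) + finrank Z2 (span Z2 (v 5 '' Y)) := by
  have s : X ⊆ Iio 12 := hu ▸ subset_union_left
  have s' : Y ⊆ Iio 12 := hu ▸ subset_union_right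
  have := FiniteDimensional.span_of_finite Z2 (((finite_Iio _).subset s).image (v 5))
  have := FiniteDimensional.span_of_finite Z2 (((finite_Iio _).subset s').image (v 5))
  lift X to Finset ℕ using (finite_Iio _).subset s
  refine (chk X (Finset.mem_powersetCard.2 ⟨fun x hx => Finset.mem_range.2 (s hx),
    by simpa using hX⟩)).trans (add_le_add (rkL_le _ _ _ ?_) (rkL_le _ _ _ ?_))
  · intro x hx
    obtain ⟨e, he, rfl⟩ := List.mem_map.1 hx
    simp only [List.mem_filter, List.mem_range, decide_eq_true_eq] at he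
    exact subset_span ⟨e, he.2, v_code he.1⟩
  · intro x hx
    obtain ⟨e, he, rfl⟩ := List.mem_map.1 hx
    simp only [List.mem_filter, List.mem_range, decide_eq_true_eq] at he
    have : e ∈ (X : Set ℕ) ∪ Y := hu ▸ he.1
    exact subset_span ⟨e, this.resolve_left he.2, v_code he.1⟩

def δ (i : ℕ) : ℕ → Z2 := Pi.single i 1

theorem proj5 (k : ℕ) : ∃ π : (ℕ → Z2) →ₗ[Z2] (ℕ → Z2),
    LinearMap.ker π = span Z2 (v (5 + 4 * k) ''
      {e | 12 ≤ e ∧ e < 2 * (5 + 4 * k) + 2 ∧ e % 2 = 0}) ∧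
    ∀ e < 12, π (v (5 + 4 * k) e) = v 5 e := by
  set n := 5 + 4 * k with hn
  let q : ℕ → ℕ → Z2 := fun i => δ i - (δ 5 + ((i : Z2) - 5) • δ 0)
  let π : (ℕ → Z2) →ₗ[Z2] (ℕ → Z2) :=
    LinearMap.id - ∑ i ∈ Finset.Ioc 5 n, (LinearMap.proj i).smulRight (q i)
  have hπ : ∀ x, π x = x - ∑ i ∈ Finset.Ioc 5 n, x i • q i := fun x => by
    simp [π, LinearMap.sum_apply]
  have p0 : ∀ x : ℕ → Z2, (∀ i, 5 < i → i ≤ n → x i = 0) → π x = x := fun x h => by
    rw [hπ, Finset.sum_eq_zero, sub_zero]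
    intro i hi
    rw [h i (Finset.mem_Ioc.1 hi).1 (Finset.mem_Ioc.1 hi).2, zero_smul]
  have p1 : ∀ i ≤ 5, π (δ i) = δ i := fun i hi => p0 _ fun j h _ => Pi.single_eq_of_ne (by omega) _
  have p2 : ∀ i, 5 ≤ i → i ≤ n → π (δ i) = δ 5 + ((i : Z2) - 5) • δ 0 := by
    intro i h1 h2
    rcases h1.eq_or_lt with rfl | h1
    · rw [p1 5 le_rfl]; simp
    rw [hπ, Finset.sum_eq_single i (fun j _ h => by simp [δ, Pi.single_eq_of_ne h])
      (fun h => absurd (Finset.mem_Ioc.2 ⟨h1, h2⟩) h)]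
    simp [q, δ]
  have two : (2 : Z2) = 0 := rfl
  have vf : ∀ m i, 1 ≤ i → v m (2 * i + 2) = δ 0 + δ (i + 1) + δ i := by
    intro m i hi
    funext j
    simp only [v, δ, Pi.add_apply, Pi.single_apply]
    split_ifs <;> first | rfl | omega
  have v2 : ∀ m, 2 ≤ m → v m 2 = δ 0 + δ 1 + δ m := by
    intro m hm
    funext j
    simp only [v, δ, Pi.add_apply, Pi.single_apply]
    split_ifs <;> first | rfl | omega
  refine ⟨π, le_antisymm (fun x hx => ?_) (span_le.2 ?_), fun e he => ?_⟩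
  · have hq : ∀ i, 5 + i ≤ n → q (5 + i) ∈
        span Z2 (v n '' {e | 12 ≤ e ∧ e < 2 * n + 2 ∧ e % 2 = 0}) := by
      intro i
      induction i with
      | zero => intro _; simp [q]
      | succ i ih =>
        intro h
        have : q (5 + (i + 1)) = q (5 + i) + v n (2 * (5 + i) + 2) := by
          rw [vf _ _ (by omega)]
          simp only [q, ← add_assoc]
          push_cast
          linear_combination (norm := module) -(congrArg (· • (δ 0 + δ (5 + i))) two)
        rw [this]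
        exact add_mem (ih (by omega)) (subset_span ⟨_, ⟨by omega, by omega, by omega⟩, rfl⟩)
    rw [LinearMap.mem_ker, hπ, sub_eq_zero] at hx
    rw [hx]
    refine sum_mem fun i hi => smul_mem _ _ ?_
    rw [Finset.mem_Ioc] at hi
    have := hq (i - 5) (by omega)
    rwa [show 5 + (i - 5) = i by omega] at this
  · rintro _ ⟨e, ⟨a, b, c⟩, rfl⟩
    obtain ⟨i, rfl⟩ : ∃ i, e = 2 * i + 2 := ⟨(e - 2) / 2, by omega⟩
    rw [SetLike.mem_coe, LinearMap.mem_ker, vf _ _ (by omega), map_add, map_add, p1 0 (by omega),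
      p2 _ (by omega) (by omega), p2 _ (by omega) (by omega)]
    push_cast
    linear_combination (norm := module) congrArg (· • (δ 5 + ((i : Z2) - 4) • δ 0)) two
  · by_cases e0 : e = 0
    · subst e0
      have : v n 0 = v 5 0 + ∑ i ∈ Finset.Ioc 5 n, δ i := by
        funext j
        simp only [v, δ, Pi.add_apply, Finset.sum_apply, Pi.single_apply, Finset.sum_ite_eq,
          Finset.mem_Ioc]
        split_ifs <;> first | rfl | omega
      rw [this, map_add, p0 _ (fun i _ _ => v0 (by omega)), map_sum, Finset.sum_congr rfl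
        fun i hi => p2 i (Finset.mem_Ioc.1 hi).1.le (Finset.mem_Ioc.1 hi).2, add_eq_left, hn]
      clear_value n
      clear this vf v2 p2 p1 p0 hπ π q hn
      induction k with
      | zero => simp
      | succ k ih =>
        rw [show 5 + 4 * (k + 1) = 5 + 4 * k + 1 + 1 + 1 + 1 by ring,
          Finset.sum_Ioc_succ_top (by omega), Finset.sum_Ioc_succ_top (by omega),
          Finset.sum_Ioc_succ_top (by omega), Finset.sum_Ioc_succ_top (by omega), ih]
        push_cast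
        linear_combination (norm := module)
          congrArg (· • ((2 : Z2) • δ 5 + (8 * (k : Z2) + 5) • δ 0)) two
    by_cases e2 : e = 2
    · subst e2
      rw [v2 n (by omega), v2 5 (by omega), map_add, map_add, p1 0 (by omega), p1 1 (by omega),
        p2 n (by omega) le_rfl, hn]
      push_cast
      linear_combination (norm := module) congrArg (· • ((2 * (k : Z2)) • δ 0)) two
    · rw [p0 _ fun i _ _ => v0 (by omega)]
      exact funext fun j => vv (by omega)

end Pool.Agent.H.MP_a6f858_co
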