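import Mathlib
import Pool.Agent.H.MP_a6f858_co.B

set_option autoImplicit false

namespace Pool.Agent.H.MP_a6f858_co

open Set Submodule Module Matroid Pool.Agent.H.MP_5d01ce_co

def HasM (M N : Matroid ℕ) : Prop := ∃ N₁ : Matroid ℕ, Matroid.IsMinor N₁ N ∧
  ∃ f : ℕ → ℕ, Set.BijOn f N₁.E M.E ∧ ∀ I ⊆ N₁.E, (N₁.Indep I ↔ M.Indep (f '' I))

def HasU (N : Matroid ℕ) : Prop := ∃ N₂ : Matroid ℕ, Matroid.IsMinor N₂ N ∧ N₂.E.Finite ∧
  N₂.E.ncard = 4 ∧ ∀ I ⊆ N₂.E, (N₂.Indep I ↔ I.ncard ≤ 2)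

variable {n : ℕ} {M M0 K : Matroid ℕ}

theorem nonl (hE : M0.E = Iio (2 * n + 2)) (r : Rp Z2 M0 (v n)) :
    ∀ c ∈ M0.E \ HH n, M0.Indep {c} := fun c hc =>
  (base hE r 0 ⟨by omega, Or.inl rfl⟩ c hc).indep.subset (by simp)

theorem hasU (hn : 2 ≤ n) (hE : M0.E = Iio (2 * n + 2)) (r : Rp Z2 M0 (v n)) (hK : K.E = M0.E)
    (hI : ∀ I, K.Indep I ↔ M0.Indep I ∨ I = HH n) : HasU K := by
  classical
  have fin : (HH n).Finite := (finite_Iio _).subset (HH_sub n)
  let C : Set ℕ := {e | e < 2 * n + 2 ∧ e % 2 = 1 ∧ 5 ≤ e}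
  have hC : K.Indep C := ((hI _).2 (Or.inr rfl)).subset fun e he => ⟨he.1, Or.inr (by
    obtain ⟨a, b, c⟩ := he; omega)⟩
  have hg : (K ／ C ＼ {e | e % 2 = 0 ∧ e ≠ 0 ∧ e ≠ 4}).E = ↑({0, 1, 3, 4} : Finset ℕ) := by
    ext e
    simp only [delete_ground, contract_ground, hK, hE, mem_sdiff, mem_Iio, C, mem_ofPred_eq,
      Finset.coe_insert, Finset.coe_singleton, mem_insert_iff, mem_singleton_iff]
    omega
  have cC : C.ncard + 1 = n := by
    have : HH n = insert 0 (insert 3 C) := by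
      ext e; simp only [HH, C, mem_insert_iff, mem_ofPred_eq]; omega
    have h := card_HH n
    have fC : C.Finite := (finite_Iio (2 * n + 2)).subset fun e he => he.1
    rw [this, ncard_insert_of_notMem (by simp [C]) (fC.insert _),
      ncard_insert_of_notMem (by simp [C]) fC] at h
    omega
  refine ⟨_, contract_delete_isMinor K C _, hg ▸ Finset.finite_toSet _, by rw [hg]; simp, ?_⟩
  intro I hs
  have dj : Disjoint I C := disjoint_left.2 fun e he => (hs he).1.2
  rw [delete_indep_iff, hC.contract_indep_iff, and_iff_right dj,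
    and_iff_left (disjoint_left.2 fun e he => (hs he).2)]
  rw [hg] at hs
  have fI : I.Finite := (Finset.finite_toSet _).subset hs
  constructor
  · intro h
    have : (I ∪ C).ncard ≤ n + 1 := by
      rcases (hI _).1 h with h | h
      · exact ind_bd hE r h
      · rw [h, card_HH]
    rw [ncard_union_eq dj fI ((finite_Iio (2 * n + 2)).subset fun e he => he.1)] at this
    omega
  · intro h
    lift I to Finset ℕ using fI
    have key : ∀ I ∈ ({0, 1, 3, 4} : Finset ℕ).powerset, I.card ≤ 2 → I ⊆ {0, 3} ∨ I ⊆ {1, 4} ∨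
      ∃ f ∈ ({1, 4} : Finset ℕ), ∃ h ∈ ({0, 3} : Finset ℕ), I ⊆ {f, 3 - h} := by decide
    rcases key I (Finset.mem_powerset.2 (by exact_mod_cast hs)) (by simpa using h) with
      q | q | ⟨f, hf, h, hh, q⟩
    · refine ((hI _).2 (Or.inr rfl)).subset fun e he => ?_
      rcases he with he | ⟨a, b, c⟩
      · have := q he
        simp only [Finset.mem_insert, Finset.mem_singleton] at this
        exact ⟨by omega, by omega⟩
      · exact ⟨a, by omega⟩
    · have b1 := (base hE r 0 ⟨by omega, Or.inl rfl⟩ 1 ⟨by rw [hE]; simp,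
        fun h => by obtain ⟨a, b⟩ := h; omega⟩).indep.subset (I := insert 1 C)
        (insert_subset_insert fun e he => by
          obtain ⟨a, b, c⟩ := he; exact ⟨⟨a, by omega⟩, fun p => by simp at p; omega⟩)
      have m4 : 4 ∈ M0.E := by rw [hE]; simp; omega
      have b2 := b1.insert_indep_iff.2 (Or.inl ⟨m4, fun p => by
        have := van0 (j := 1) (by rintro e (rfl | ⟨a, b, c⟩) <;> omega)
          ((r.cl b1.subset_ground m4).1 p)
        rw [v1 (by omega)] at this; exact one_ne_zero this⟩)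
      refine ((hI _).2 (Or.inl b2)).subset fun e he => ?_
      rcases he with he | he
      · have := q he
        simp only [Finset.mem_insert, Finset.mem_singleton] at this
        rcases this with rfl | rfl <;> simp
      · exact Or.inr (Or.inr he)
    · simp only [Finset.mem_insert, Finset.mem_singleton] at hf hh
      refine ((hI _).2 (Or.inl (base hE r h ⟨by omega, by omega⟩ f ⟨by rw [hE]; simp; omega,
        fun h => by obtain ⟨a, b⟩ := h; omega⟩).indep)).subset fun e he => ?_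
      rcases he with he | ⟨a, b, c⟩
      · have := q he
        simp only [Finset.mem_insert, Finset.mem_singleton] at this
        rcases this with rfl | rfl
        · simp
        · exact Or.inr ⟨⟨by omega, by omega⟩, fun p => by simp at p; omega⟩
      · exact Or.inr ⟨⟨a, by omega⟩, fun p => by simp at p; omega⟩

theorem hasM {k : ℕ} (hk : 1 ≤ k) (hM : M.E = Iio 12) (rM : Rp Z2 M (v 5))
    (hE : M0.E = Iio (2 * (5 + 4 * k) + 2)) (r : Rp Z2 M0 (v (5 + 4 * k))) (hK : K.E = M0.E)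
    (hI : ∀ I, K.Indep I ↔ M0.Indep I ∨ I = HH (5 + 4 * k)) : HasM M K := by
  obtain ⟨π, h1, h2⟩ := proj5 k
  set C := {e | 12 ≤ e ∧ e < 2 * (5 + 4 * k) + 2 ∧ e % 2 = 0}
  have hC : C ⊆ M0.E := fun e he => hE ▸ he.2.1
  let D := {e | 12 ≤ e ∧ e % 2 = 1}
  have r1 := r.minor hC D π h1
  rw [← caseA hK hI (nonl hE r) hC (disjoint_left.2 fun e a b => by
      obtain ⟨_, _, _⟩ := a; obtain ⟨_, _⟩ := b; omega)
    (Or.inr ⟨12, ⟨by omega, by omega, by omega⟩, fun h => by obtain ⟨a, b⟩ := h; omega⟩)] at r1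
  have hg : (K ／ C ＼ D).E = Iio 12 := by
    ext e
    simp only [delete_ground, contract_ground, hK, hE, mem_sdiff, mem_Iio, C, D, mem_ofPred_eq]
    omega
  refine ⟨_, contract_delete_isMinor K C D, id, by rw [hg, hM]; exact bijOn_id _, fun I hs => ?_⟩
  rw [image_id, r1 _ hs, rM _ (by rw [hM, ← hg]; exact hs)]
  exact linearIndepOn_congr fun e he => h2 e (by have := hs he; rwa [hg] at this)

theorem notM {l : ℕ} (h1 : 1 ≤ l) (h2 : l < n) (hM : M.E = Iio 12) (rM : Rp Z2 M (v 5))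
    (hE : M0.E = Iio (2 * n + 2)) (r : Rp Z2 M0 (v n)) (hK : K.E = M0.E)
    (hI : ∀ I, K.Indep I ↔ M0.Indep I ∨ I = HH n) {C D : Set ℕ} (hC : C ⊆ M0.E)
    (hd : Disjoint C D) (hl : 2 * l + 2 ∈ D) {f : ℕ → ℕ} (hf : BijOn f (K ／ C ＼ D).E M.E)
    (hi : ∀ I ⊆ (K ／ C ＼ D).E, ((K ／ C ＼ D).Indep I ↔ M.Indep (f '' I))) : False := by
  classical
  set N := K ／ C ＼ D with hN
  have hNE : ∀ e, e ∈ N.E ↔ e < 2 * n + 2 ∧ e ∉ C ∧ e ∉ D := fun e => by
    simp [hN, hK, hE, and_assoc]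
  have fN : N.E.Finite := (finite_Iio (2 * n + 2)).subset fun e he => ((hNE e).1 he).1
  have r2 : Rp Z2 N (v 5 ∘ f) := fun I hs => by
    rw [hi I hs, rM _ (image_subset_iff.2 fun x hx => hf.mapsTo (hs hx))]
    exact ⟨fun h => h.comp_of_image (hf.injOn.mono hs), LinearIndepOn.image_of_comp _ _⟩
  have c12 : N.E.ncard = 12 := by
    rw [← hf.injOn.ncard_image, hf.image_eq, hM]; simp
  have rkN : ∀ X ⊆ N.E, N.eRk X = finrank Z2 (span Z2 (v 5 '' (f '' X))) := fun X hX => by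
    rw [r2.rk fN hX, image_comp]
  have r6 : ∀ X ⊆ N.E, finrank Z2 (span Z2 (v 5 '' (f '' X))) ≤ 6 := fun X hX =>
    rk_bd (n := 5) (hM ▸ image_subset_iff.2 fun x hx => hf.mapsTo (hX hx))
  by_cases hA : (∃ h ∈ D, h ∈ HH n) ∨ ∃ c ∈ C, c ∉ HH n
  · have r1 := r.minor hC D _ (ker_mkQ _)
    rw [← caseA hK hI (nonl hE r) hC hd hA, ← hN] at r1
    let g : ℕ → ℕ := fun T => (N.E ∩ {e | e < 2 ∨ pos n (2 * l + 2) e ≤ T}).ncard
    have nd : ∀ e ∈ N.E, e ≠ 2 * l + 2 := fun e he q => ((hNE e).1 he).2.2 (q ▸ hl)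
    have g0 : g 0 ≤ 2 := by
      refine (ncard_le_ncard (t := {0, 1}) ?_ (toFinite _)).trans (by simp)
      rintro e ⟨a, b⟩
      have := nd e a
      have := ((hNE e).1 a).1
      simp only [mem_ofPred_eq, pos, mem_insert_iff, mem_singleton_iff] at b ⊢
      split_ifs at b <;> omega
    have gs : ∀ T, g (T + 1) ≤ g T + 1 := by
      intro T
      refine le_trans (ncard_le_ncard (t := insert (if 2 * l + 2 + (T + 1) < 2 * n + 2 then
        2 * l + 2 + (T + 1) else 2 * l + 2 + (T + 1) - 2 * n)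
          (N.E ∩ {e | e < 2 ∨ pos n (2 * l + 2) e ≤ T})) ?_
        ((fN.subset inter_subset_left).insert _)) (ncard_insert_le _ _)
      rintro e ⟨a, b⟩
      have := ((hNE e).1 a).1
      simp only [mem_ofPred_eq, pos, mem_insert_iff, mem_inter_iff, a, true_and] at b ⊢
      split_ifs at b ⊢ <;> omega
    have ge : g (2 * n) = 12 := by
      rw [← c12]
      refine congrArg ncard (inter_eq_left.2 fun e a => ?_)
      have := ((hNE e).1 a).1
      simp only [mem_ofPred_eq, pos]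
      split_ifs <;> omega
    obtain ⟨T, hT⟩ : ∃ T, g T = 5 := by
      by_contra q
      push Not at q
      have : ∀ T, g T < 5 := fun T => by
        induction T with
        | zero => omega
        | succ T ih => have := gs T; have := q (T + 1); omega
      have := this (2 * n)
      omega
    set X := N.E ∩ {e | e < 2 ∨ pos n (2 * l + 2) e ≤ T}
    have hX : X ⊆ N.E := inter_subset_left
    have t1 := thick (X := f '' X) (Y := f '' (N.E \ X))
      (by rw [(hf.injOn.mono hX).ncard_image]; exact hT)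
      (by rw [← image_union, union_sdiff_cancel hX, hf.image_eq, hM])
    have t2 := r6 _ subset_rfl
    have e1 := (rkN X hX).symm.trans (r1.rk fN hX)
    have e2 := (rkN _ (sdiff_subset (t := X))).symm.trans (r1.rk fN sdiff_subset)
    have e3 := (rkN _ subset_rfl).symm.trans (r1.rk fN subset_rfl)
    norm_cast at e1 e2 e3
    set Q := span Z2 (v n '' C)
    have := FiniteDimensional.span_of_finite Z2 ((fN.subset hX).image (Q.mkQ ∘ v n))
    have := FiniteDimensional.span_of_finite Z2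
      ((fN.subset (sdiff_subset (t := X))).image (Q.mkQ ∘ v n))
    have e4 := finrank_sup_add_finrank_inf_eq (span Z2 ((Q.mkQ ∘ v n) '' X))
      (span Z2 ((Q.mkQ ∘ v n) '' (N.E \ X)))
    rw [← span_union, ← image_union, union_sdiff_cancel hX] at e4
    have w := width h1 h2 T
    set A := {e | e < 2 * n + 2 ∧ e ≠ 2 * l + 2 ∧ (e < 2 ∨ pos n (2 * l + 2) e ≤ T)}
    set B := {e | e < 2 * n + 2 ∧ 2 ≤ e ∧ T < pos n (2 * l + 2) e}
    have e5 : span Z2 ((Q.mkQ ∘ v n) '' X) ⊓ span Z2 ((Q.mkQ ∘ v n) '' (N.E \ X)) ≤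
        (span Z2 (v n '' A) ⊓ span Z2 (v n '' B)).map Q.mkQ := by
      rw [image_comp, image_comp, ← map_span, ← map_span]
      refine quot_inf (span_mono (image_mono ?_)) (span_mono (image_mono ?_))
        (le_antisymm (span_le.2 ?_) (sup_le inf_le_left inf_le_left))
      · exact fun e he => ⟨((hNE e).1 he.1).1, nd e he.1, he.2⟩
      · intro e he
        have : ¬ (e < 2 ∨ pos n (2 * l + 2) e ≤ T) := fun p => he.2 ⟨he.1, p⟩
        exact ⟨((hNE e).1 he.1).1, by omega, by omega⟩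
      · rintro _ ⟨c, hc, rfl⟩
        have c1 : c < 2 * n + 2 := by have := hC hc; rwa [hE] at this
        have c2 : v n c ∈ Q := subset_span ⟨c, hc, rfl⟩
        by_cases p : c < 2 ∨ pos n (2 * l + 2) c ≤ T
        · exact mem_sup_left ⟨c2, subset_span
            ⟨c, ⟨c1, fun q => disjoint_left.1 hd hc (q ▸ hl), p⟩, rfl⟩⟩
        · exact mem_sup_right ⟨c2, subset_span ⟨c, ⟨c1, by omega, by omega⟩, rfl⟩⟩
    have := FiniteDimensional.span_of_finite Z2
      (((finite_Iio (2 * n + 2)).subset (fun e he => he.1 : A ⊆ _)).image (v n))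
    have e6 := (finrank_mono e5).trans (finrank_map_le _ _)
    omega
  · push Not at hA
    have iC : K.Indep C := ((hI _).2 (Or.inr rfl)).subset hA.2
    have ind : ∀ I ⊆ N.E, N.Indep I ↔ K.Indep (I ∪ C) := fun I hs => by
      rw [hN, delete_indep_iff, iC.contract_indep_iff,
        and_iff_right (disjoint_left.2 fun e he => (hs he).1.2),
        and_iff_left (disjoint_left.2 fun e he => (hs he).2)]
    have fin : (HH n).Finite := (finite_Iio _).subset (HH_sub n)
    obtain ⟨B, hB⟩ : ∃ B : Finset ℕ, (B : Set ℕ) = HH n \ C :=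
      ⟨_, (fin.subset sdiff_subset).coe_toFinset⟩
    have sB : (B : Set ℕ) ⊆ N.E := fun e he => by
      rw [hB] at he; exact (hNE e).2 ⟨he.1.1, he.2, fun q => hA.1 e q he.1⟩
    have uB : (B : Set ℕ) ∪ C = HH n := by rw [hB, sdiff_union_of_subset hA.2]
    have iB : N.Indep B := (ind _ sB).2 ((hI _).2 (Or.inr uB))
    have nH : ∀ e ∈ N.E \ B, e ∈ M0.E \ HH n := fun e he =>
      ⟨hE ▸ ((hNE e).1 he.1).1, fun q => he.2 (hB ▸ ⟨q, ((hNE e).1 he.1).2.1⟩)⟩
    have bB : N.IsBase B := iB.isBase_of_forall_insert fun e he q => by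
      rw [ind _ q.subset_ground, insert_union, uB, hI] at q
      rcases q with q | q
      · have := ind_bd hE r q
        rw [ncard_insert_of_notMem (nH e he).2 fin, card_HH] at this
        omega
      · exact (nH e he).2 (q ▸ mem_insert _ _)
    have ex : ∀ e ∈ N.E \ B, ∀ h ∈ B, N.Indep (insert e (B \ {h})) := fun e he h hh => by
      have h3 : h ∈ HH n \ C := hB ▸ hh
      rw [ind _ (insert_subset he.1 (sdiff_subset.trans sB))]
      refine ((hI _).2 (Or.inl (base hE r h h3.1 e (nH e he)).indep)).subset ?_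
      rintro x ((rfl | hx) | hx)
      · simp
      · exact Or.inr ⟨(hB ▸ hx.1 : x ∈ HH n \ C).1, hx.2⟩
      · exact Or.inr ⟨hA.2 _ hx, fun q => h3.2 (q ▸ hx)⟩
    have c6 : (B : Set ℕ).ncard ≤ 6 := by
      rw [← li_rk B.finite_toSet ((r2 _ sB).1 iB), image_comp]; exact r6 _ sB
    obtain ⟨a, b, ha, hb, hab⟩ := (one_lt_ncard_iff (fN.subset (sdiff_subset (t := B)))).1
      (by rw [ncard_sdiff sB B.finite_toSet]; omega)
    have := caseAux r2 bB ha hb (ex a ha) (ex b hb)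
    exact hab (hf.injOn ha.1 hb.1 (v5_inj (by have := hf.mapsTo ha.1; rwa [hM] at this)
      (by have := hf.mapsTo hb.1; rwa [hM] at this) this))

theorem main : ∃ M : Matroid ℕ, M.Finite ∧ ∀ B : ℕ, ∃ N : Matroid ℕ, N.Finite ∧
    (HasM M N ∧ HasU N ∧ ∀ N', N' ≤m N → N' ≠ N → ¬ (HasM M N' ∧ HasU N')) ∧ B < N.E.ncard := by
  obtain ⟨M, hM, rM⟩ := vm Z2 (v 5) (finite_Iio 12)
  refine ⟨M, ⟨hM ▸ finite_Iio _⟩, fun B => ?_⟩
  obtain ⟨M0, hE, r⟩ := vm Z2 (v (5 + 4 * (B + 1))) (finite_Iio (2 * (5 + 4 * (B + 1)) + 2))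
  obtain ⟨K, hK, hI⟩ := relax (M := M0) (hE ▸ finite_Iio _) (hE ▸ HH_sub _) (base hE r)
    (h0 := 0) (f0 := 1) ⟨by omega, Or.inl rfl⟩ ⟨by rw [hE]; simp,
      fun h => by obtain ⟨a, b⟩ := h; omega⟩
  have fK : K.E.Finite := by rw [hK, hE]; exact finite_Iio _
  obtain ⟨N, ⟨hN, h1, h2⟩, hmin⟩ := exists_minimalFor_of_wellFoundedLT
    (fun N : Matroid ℕ => N ≤m K ∧ HasM M N ∧ HasU N) (fun N => N.E.ncard)
    ⟨K, IsMinor.refl, hasM (by omega) hM rM hE r hK hI, hasU (by omega) hE r hK hI⟩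
  have fN : N.E.Finite := fK.subset hN.subset
  refine ⟨N, ⟨fN⟩, ⟨h1, h2, fun N' a b c => ?_⟩, ?_⟩
  · have := ncard_lt_ncard (isStrictMinor_iff_isMinor_ne.2 ⟨a, b⟩).ssubset fN
    exact this.not_ge (hmin ⟨a.trans hN, c⟩ this.le)
  have key : ∀ l, 1 ≤ l → l < 5 + 4 * (B + 1) → 2 * l + 2 ∈ N.E := by
    intro l a b
    by_contra q
    obtain ⟨N1, m1, f, f1, f2⟩ := h1
    obtain ⟨N2, m2, -, u1, u2⟩ := h2
    obtain ⟨C, D, hC, -, hd, rfl⟩ := hN.exists_eq_contract_delete_disjoint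
    have mem : 2 * l + 2 ∈ K.E := by rw [hK, hE]; simp; omega
    by_cases p : 2 * l + 2 ∈ C
    · rw [caseA hK hI (nonl hE r) (hK ▸ hC) hd
        (Or.inr ⟨_, p, fun h => by obtain ⟨a, b⟩ := h; omega⟩)] at m2
      obtain ⟨C2, D2, hC2, -, -, rfl⟩ :=
        (m2.trans (contract_delete_isMinor _ _ _)).exists_eq_contract_delete_disjoint
      exact no24 (r.minor hC2 D2 _ (ker_mkQ _)) u1 u2
    have pD : 2 * l + 2 ∈ D := by
      by_contra t
      exact q ⟨⟨mem, p⟩, t⟩
    have m3 : K ／ C ＼ D ≤m K ＼ {2 * l + 2} := by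
      rw [← union_eq_self_of_subset_left (singleton_subset_iff.2 pD), ← delete_delete,
        contract_delete_comm _ (disjoint_singleton_right.2 p)]
      exact contract_delete_isMinor _ _ _
    obtain ⟨C1, D1, hC1, -, hd1, rfl⟩ := (m1.trans m3).exists_eq_contract_delete_disjoint
    have d1 : Disjoint C1 {2 * l + 2} := disjoint_left.2 fun e he => (hC1 he).2
    rw [← contract_delete_comm _ d1, delete_delete] at f1 f2
    exact notM a b hM rM hE r hK hI (fun e he => hK ▸ (hC1 he).1) (disjoint_union_right.2 ⟨d1, hd1⟩)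
      (Or.inl rfl) f1 f2
  have : ((fun l => 2 * (l + 1) + 2) '' Iio (B + 1)).ncard ≤ N.E.ncard :=
    ncard_le_ncard (by rintro _ ⟨l, hl, rfl⟩; exact key _ (by omega) (by simp at hl; omega)) fN
  rw [ncard_image_of_injective _ (fun a b h => by simpa using h)] at this
  simp at this
  omega

end Pool.Agent.H.MP_a6f858_co
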